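import Mathlib
import Pool.Agent.Q237.LT.Tot
import Pool.Agent.Results.MP_f5471b_nt.AllFieldsFaltings

/-!
# The strong inequality of Lang and Silverman with the relative Faltings height over all extensions
# of small root discriminant, with few exceptions

The starting result `AllFieldsFaltings` shows the strong lower bound (without torsion) over `K` for all
`j ∈ K` of absolute height at most `B` with at most `(C B ^ (2 - η / 2 + ε)) ^ n` exceptions. Here the
exceptional set is much smaller, at most `(C B ^ (1/3 + 4/3 (θ + κ) + ε)) ^ n`, and for all `j` outside of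
it the inequality holds not only over `K` but over ALL finite extensions `L` of `K`, of any degree, whose
root discriminant is at most `δ_K H(j) ^ κ` (for `κ = 0`: for instance over all unramified extensions),
for all elliptic curves over `L` of invariant `j`, with constants `c₀ θ ^ 6` and `28 / θ ^ 2` which depend
neither on `K` nor on `L`.

The alternative (a) of the problem (with `B = 0`, or with the product of all factors but one) holds
with a bound `28 / θ ^ 2` for the orders of the components, and the alternative (b) with the constant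
`c₀ θ ^ 6`. The definitions of the relative Faltings height and of the canonical heights are those of the
starting file `AllFieldsFaltings`.
-/

set_option autoImplicit false
set_option linter.unusedSectionVars false

namespace Pool.Agent.Results.MP_f5471b_nt.ExtensionsSmallDiscriminant

open NumberField IsDedekindDomain Pool.Agent.TH942 Pool.Agent.TH910.LS
open AllFieldsFaltings (jInv IsPeriod faltings rootDisc Inv)

section Defs

/-- The absolute multiplicative height. -/
noncomputable def absHeight {K : Type} [Field K] [NumberField K] (j : K) : ℝ :=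
  Height.mulHeight₁ j ^ (1 / (Module.finrank ℚ K : ℝ))

open Classical in
/-- The inequality for the invariant `j ∈ L`: the torsion points over `L` of all curves
`y² = x³ + a x + b` over `L` of invariant `j` have order at most `N`, and the absolute canonical height of
each point `P` of infinite order of a power of the curve, for each polarization `M`, is at least
`c max (h_F, 1)`, with the relative Faltings height `h_F` over `L`. -/
def Alternative (c N : ℝ) {L : Type} [Field L] [NumberField L] (j : L) : Prop :=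
  ∀ a b : L, 4 * a ^ 3 + 27 * b ^ 2 ≠ 0 → jInv a b = j →
    (∀ Q : SPt a b, IsOfFinAddOrder Q → (addOrderOf Q : ℝ) ≤ N) ∧
    ∀ τ : InfinitePlace L → UpperHalfPlane, IsPeriod j τ →
    ∀ (g : ℕ) (M : Matrix (Fin g) (Fin g) ℤ), (M.map (Int.cast : ℤ → ℝ)).PosDef →
    ∀ P : Fin g → SPt a b, ¬ IsOfFinAddOrder P →
      c * max (faltings a b τ) 1 ≤ chatM M P / Module.finrank ℚ L

/-- The inequality holds for `j ∈ K` over all finite extensions `L` of `K` of root discriminant at most
`δ_K H(j) ^ κ`. -/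
def HoldsOver (κ c N : ℝ) {K : Type} [Field K] [NumberField K] (j : K) : Prop :=
  ∀ (L : Type) [Field L] [NumberField L] [Algebra K L],
    rootDisc L ≤ rootDisc K * absHeight j ^ κ → Alternative c N (algebraMap K L j)

end Defs

open Pool.Agent.Y733.UD Pool.Agent.Y733.LS Pool.Agent.W223.AK Pool.Agent.H691R3

section Aux

variable {K : Type} [Field K] [NumberField K]

theorem absHeight_pow (j : K) (κ : ℝ) :
    absHeight j ^ κ = Real.exp (κ * (Height.logHeight₁ j / Module.finrank ℚ K)) := by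
  have h0 : Height.logHeight₁ j = Real.log (Height.mulHeight₁ j) := rfl
  have h1 : absHeight j = Real.exp (Height.logHeight₁ j / Module.finrank ℚ K) := by
    unfold absHeight
    rw [Real.rpow_def_of_pos (Height.mulHeight₁_pos j), ← h0]
    congr 1
    ring
  rw [h1, ← Real.exp_mul, mul_comm]

open Classical in
/-- the lower bound with the Faltings height -/
theorem alt_of : ∃ c₁ : ℝ, 0 < c₁ ∧ ∀ (L : Type) [Field L] [NumberField L] (c N : ℝ) (j : L),
    0 ≤ c → Pool.Agent.Q237.LS.LT c N j → Alternative (c₁ * c) N j := by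
  obtain ⟨C, hC, h⟩ := Pool.Agent.Y733.FF.fal_le
  refine ⟨1 / (10 + C), by positivity, ?_⟩
  intro L _ _ c N j hc hj a b hD hab
  obtain ⟨t1, t2⟩ := hj a b hD hab
  refine ⟨t1, fun τ hτ g M hM P hP => ?_⟩
  have hn : (0 : ℝ) < Module.finrank ℚ L := by exact_mod_cast Module.finrank_pos
  have hab' : jj a b = j := hab
  have hτ' : Pool.Agent.TH876.FH.IsPeriod (jj a b) τ := by
    rw [hab']
    exact hτ
  obtain ⟨S, hS, h1⟩ := h L a b τ hD hτ'
  have h2 := t2 S hS g M hM P hP
  rw [← hab'] at h2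
  have h3 : 0 ≤ ht (jj a b) := ht_nonneg _
  have h4 : 0 ≤ ∑ v ∈ S, Real.log (Nv v) := Finset.sum_nonneg fun v _ => (log_Nv_pos v).le
  have h10 : 0 < 10 + C := by positivity
  have e : 1 / (10 + C) * c = c / (10 + C) := by ring
  have k1 : c / (10 + C) * (Pool.Agent.Y733.FF.discSum (sw a b) +
      ∑ w : InfinitePlace L, (w.mult : ℝ) * Pool.Agent.TH876.FH.arch (τ w)) ≤ chatM M P := by
    refine le_trans ?_ h2
    rw [div_mul_eq_mul_div, div_le_iff₀ h10, mul_assoc]
    apply mul_le_mul_of_nonneg_left _ hc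
    nlinarith
  have k2 : c / (10 + C) * Module.finrank ℚ L ≤ chatM M P := by
    refine le_trans ?_ h2
    rw [div_mul_eq_mul_div, div_le_iff₀ h10, mul_assoc]
    apply mul_le_mul_of_nonneg_left _ hc
    nlinarith
  have hcc : 0 ≤ c / (10 + C) := div_nonneg hc h10.le
  rw [e, le_div_iff₀ hn]
  rcases le_total (faltings a b τ) 1 with h5 | h5
  · rw [max_eq_right h5, mul_one]
    exact k2
  · rw [max_eq_left h5]
    have h6 : Pool.Agent.Y733.FF.discSum (sw a b) +
        ∑ w : InfinitePlace L, (w.mult : ℝ) * Pool.Agent.TH876.FH.arch (τ w) =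
        12 * Module.finrank ℚ L * faltings a b τ := by
      rw [AllFieldsFaltings.faltings_eq, mul_div_cancel₀ _ (by positivity)]
    rw [h6] at k1
    have h7 : 0 ≤ c / (10 + C) * faltings a b τ * Module.finrank ℚ L :=
      mul_nonneg (mul_nonneg hcc (by linarith)) hn.le
    nlinarith

/-- from the property of the library -/
theorem holds_of {c₁ : ℝ} (h₁ : ∀ (L : Type) [Field L] [NumberField L] (c N : ℝ) (j : L),
    0 ≤ c → (by classical exact Pool.Agent.Q237.LS.LT c N j) → Alternative (c₁ * c) N j)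
    {κ c N : ℝ} (hc : 0 ≤ c) {j : K} (h : Pool.Agent.Q237.LS.UT κ c N j) :
    HoldsOver κ (c₁ * c) N j := by
  classical
  intro L _ _ _ hL
  have h2 : Real.log |(discr L : ℝ)| ≤
      Module.finrank K L * (Real.log |(discr K : ℝ)| + κ * ht j) := by
    apply Pool.Agent.Q237.LS.rDisc_le
    rw [absHeight_pow] at hL
    exact hL
  exact h₁ L c N _ hc (h L h2)

open Classical in
/-- products of powers -/
theorem products {L : Type} [Field L] [NumberField L] {c N : ℝ} (hc : 0 < c) {r : ℕ}
    (hr : 0 < r) (a b : Fin r → L) (τ : Fin r → InfinitePlace L → UpperHalfPlane)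
    (hD : ∀ i, 4 * a i ^ 3 + 27 * b i ^ 2 ≠ 0) (hj : ∀ i, Alternative c N (jInv (a i) (b i)))
    (hτ : ∀ i, IsPeriod (jInv (a i) (b i)) (τ i)) (g : Fin r → ℕ) (hg : ∀ i, 1 ≤ g i)
    (M : ∀ i, Matrix (Fin (g i)) (Fin (g i)) ℤ)
    (hM : ∀ i, ((M i).map (Int.cast : ℤ → ℝ)).PosDef) (P : ∀ i, Fin (g i) → SPt (a i) (b i)) :
    (∃ i, IsOfFinAddOrder (P i) ∧ ∀ k, (addOrderOf (P i k) : ℝ) ≤ N) ∨
      ((∀ i, ¬ IsOfFinAddOrder (P i)) ∧
      c / (∑ i, g i : ℕ) * max (∑ i, g i * faltings (a i) (b i) (τ i)) 1 ≤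
        (∑ i, chatM (M i) (P i)) / Module.finrank ℚ L) := by
  by_cases h0 : ∃ i, IsOfFinAddOrder (P i)
  · left
    obtain ⟨i, hi⟩ := h0
    refine ⟨i, hi, fun k => ?_⟩
    refine (hj i (a i) (b i) (hD i) rfl).1 (P i k) ?_
    obtain ⟨m, hm, hmP⟩ := isOfFinAddOrder_iff_nsmul_eq_zero.1 hi
    exact isOfFinAddOrder_iff_nsmul_eq_zero.2 ⟨m, hm, congrFun hmP k⟩
  right
  push Not at h0
  refine ⟨h0, ?_⟩
  have h1 : ∀ i, c * max (faltings (a i) (b i) (τ i)) 1 ≤
      chatM (M i) (P i) / Module.finrank ℚ L := fun i =>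
    (hj i (a i) (b i) (hD i) rfl).2 (τ i) (hτ i) (g i) (M i) (hM i) (P i) (h0 i)
  set G : ℕ := ∑ i, g i with hG
  have hGi : ∀ i, g i ≤ G := fun i => Finset.single_le_sum (fun _ _ => Nat.zero_le _)
    (Finset.mem_univ i)
  have hG1 : 1 ≤ G := (hg ⟨0, hr⟩).trans (hGi ⟨0, hr⟩)
  have hG0 : (0 : ℝ) < G := by exact_mod_cast hG1
  have h2 : max (∑ i, g i * faltings (a i) (b i) (τ i)) 1 ≤
      ∑ i, (g i : ℝ) * max (faltings (a i) (b i) (τ i)) 1 := by
    apply max_le
    · exact Finset.sum_le_sum fun i _ =>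
        mul_le_mul_of_nonneg_left (le_max_left _ _) (Nat.cast_nonneg _)
    · have h3 : (G : ℝ) ≤ ∑ i, (g i : ℝ) * max (faltings (a i) (b i) (τ i)) 1 := by
        rw [hG]
        push_cast
        refine Finset.sum_le_sum fun i _ => ?_
        exact le_mul_of_one_le_right (Nat.cast_nonneg _) (le_max_right _ _)
      have h4 : (1 : ℝ) ≤ G := by exact_mod_cast hG1
      linarith
  calc c / G * max (∑ i, g i * faltings (a i) (b i) (τ i)) 1
      ≤ c / G * ∑ i, (g i : ℝ) * max (faltings (a i) (b i) (τ i)) 1 :=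
        mul_le_mul_of_nonneg_left h2 (by positivity)
    _ = ∑ i, ((g i : ℝ) / G) * (c * max (faltings (a i) (b i) (τ i)) 1) := by
        rw [Finset.mul_sum]
        refine Finset.sum_congr rfl fun i _ => ?_
        ring
    _ ≤ ∑ i, chatM (M i) (P i) / Module.finrank ℚ L := by
        refine Finset.sum_le_sum fun i _ => ?_
        refine le_trans (mul_le_of_le_one_left ?_ ?_) (h1 i)
        · exact mul_nonneg hc.le (le_trans zero_le_one (le_max_right _ _))
        · rw [div_le_one hG0]
          exact_mod_cast hGi i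
    _ = _ := by rw [Finset.sum_div]

end Aux

open Classical in
/-- **Theorem.** There is an absolute constant `c₀ > 0` such that: (1) for `0 < θ ≤ 1`, `κ ≥ 0` and `ε > 0`
there is `C` such that for all number fields `K` and all `B ≥ 1` there are at most
`(C B ^ (1/3 + 4/3 (θ + κ) + ε)) ^ [K : ℚ]` elements `j ≠ 0, 1728` of `K` of absolute height at most `B` for
which `HoldsOver κ (c₀ θ ^ 6) (28 / θ ^ 2) j` fails. (2) If the inequality with `c`, `N` holds over `L` for the
invariants of the curves `E_i`, then for all polarizations `M_i` each point `P` over `L` of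
`A = ∏ E_i ^ (g_i)`, `g = ∑ g_i`, has a component `P_i` in some `E_i ^ (g_i)` which is torsion, with
coordinates of order at most `N`, or all `P_i` have infinite order and the canonical height of `P` is at
least `(c / g) max (h_F(A/L), 1)`. -/
theorem result :
    (∃ c₀ : ℝ, 0 < c₀ ∧ ∀ θ κ ε : ℝ, 0 < θ → θ ≤ 1 → 0 ≤ κ → 0 < ε → ∃ C : ℝ, 0 < C ∧
      ∀ (K : Type) [Field K] [NumberField K] (B : ℝ), 1 ≤ B →
        (Inv K B).Finite ∧
        (({j ∈ Inv K B | ¬ HoldsOver κ (c₀ * θ ^ 6) (28 / θ ^ 2) j} : Set K).ncard : ℝ) ≤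
          (C * B ^ (1 / 3 + 4 / 3 * (θ + κ) + ε)) ^ Module.finrank ℚ K) ∧
    ∀ (L : Type) [Field L] [NumberField L] (c N : ℝ), 0 < c → ∀ r : ℕ, 0 < r →
      ∀ (a b : Fin r → L) (τ : Fin r → InfinitePlace L → UpperHalfPlane),
      (∀ i, 4 * a i ^ 3 + 27 * b i ^ 2 ≠ 0) → (∀ i, Alternative c N (jInv (a i) (b i))) →
      (∀ i, IsPeriod (jInv (a i) (b i)) (τ i)) → ∀ g : Fin r → ℕ, (∀ i, 1 ≤ g i) →
      ∀ (M : ∀ i, Matrix (Fin (g i)) (Fin (g i)) ℤ),
      (∀ i, ((M i).map (Int.cast : ℤ → ℝ)).PosDef) →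
      ∀ P : ∀ i, Fin (g i) → SPt (a i) (b i),
        (∃ i, IsOfFinAddOrder (P i) ∧ ∀ k, (addOrderOf (P i k) : ℝ) ≤ N) ∨
          ((∀ i, ¬ IsOfFinAddOrder (P i)) ∧
          c / (∑ i, g i : ℕ) * max (∑ i, g i * faltings (a i) (b i) (τ i)) 1 ≤
            (∑ i, chatM (M i) (P i)) / Module.finrank ℚ L) := by
  refine ⟨?_, fun L _ _ c N hc r hr a b τ hD hj hτ g hg M hM P =>
    products hc hr a b τ hD hj hτ g hg M hM P⟩
  obtain ⟨c₁, hc₁, h₁⟩ := alt_of
  refine ⟨c₁ / 290000, by positivity, ?_⟩
  intro θ κ ε hθ hθ1 hκ hε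
  obtain ⟨A1, hA1, h1⟩ := Pool.Agent.Q237.LT.log_countU hθ hθ1 hκ hε
    (fun K _ _ j => HoldsOver κ (c₁ / 290000 * θ ^ 6) (28 / θ ^ 2) j) (fun K _ _ j h => by
      have h2 := holds_of (c₁ := c₁) (fun L _ _ c N j hc h => h₁ L c N j hc h) (by positivity) h
      have e : c₁ * (θ ^ 6 / 290000) = c₁ / 290000 * θ ^ 6 := by ring
      rwa [e] at h2)
  refine ⟨Real.exp A1, Real.exp_pos _, ?_⟩
  intro K _ _ B hB
  refine ⟨AllFieldsFaltings.fin_Inv B, ?_⟩
  have hB0 : 0 < B := by linarith
  have h3 := h1 K B hB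
  rw [← Pool.Agent.Q237.LS.pow_form2 hB0] at h3
  exact h3

end Pool.Agent.Results.MP_f5471b_nt.ExtensionsSmallDiscriminant
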